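import Pool.Agent.Q255.ZS.Ae2
import Pool.Agent.Q150.ZS.SysWg
import Pool.Agent.Q261.ZS.Exp
import Pool.Agent.Q275.ZS.Loz
import Pool.Agent.Q166.HC.HCI
import Pool.Agent.Q166.HC.ONE
import Pool.Agent.Q257.HC.AEG

set_option autoImplicit false

/-!
# Shifted moments of almost every twist of zeta: all shifts, all windows

Q1 asks for a formula with a power saving for the integrals of
`∏_j ζ(1/2+i(t+α_j)) ζ(1/2-i(t+β_j))`, for all `k` and all shifts. Here `ζ(1/2+it)` is replaced by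
`Z(t) = ∑_{n ≤ N} f(n) n^(-1/2-it)`, where `f` is a unimodular completely multiplicative function.
For almost every `f` the integral of `∏_j Z(t+α_j) conj Z(t+β_j)` over a window is the length of the
window times the diagonal sum, up to `O(√length T^ε)`, for all `k`, uniformly in all shifts up to
`T^A`, all lengths `N ≤ T^A` and all windows below `T^A`.
-/

namespace Pool.Agent.Results.MP_fa2474_nt.AllShiftsForAlmostEveryTwist

open MeasureTheory Finset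

/-- The uniform distribution on the angles `ω 0, ω 1, ω 2, …` (independent, uniform on the circle
`ℝ/ℤ`). -/
noncomputable def uniform : Measure (ℕ → UnitAddCircle) :=
  Measure.infinitePi fun _ => (volume : Measure UnitAddCircle)

/-- The completely multiplicative function with the value `exp(2 π i ω_p)` at the prime `p`. -/
noncomputable def twist (ω : ℕ → UnitAddCircle) (n : ℕ) : ℂ :=
  ∏ p ∈ n.primeFactors, ((ω p).toCircle : ℂ) ^ n.factorization p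

/-- `Z(t) = ∑_{1 ≤ n ≤ N} f(n) n^(-1/2 - i t)`. -/
noncomputable def Z (ω : ℕ → UnitAddCircle) (N : ℕ) (t : ℝ) : ℂ :=
  ∑ n ∈ Icc 1 N, twist ω n * (n : ℂ) ^ (-(1 / 2 + t * Complex.I) : ℂ)

/-- `τ_α(m) = ∑ ∏_j v_j^(-i α_j)`, the sum over the tuples `v` in `[1, N]^k` with product `m`. -/
noncomputable def tau {k : ℕ} (α : Fin k → ℝ) (N m : ℕ) : ℂ :=
  ∑ v ∈ (Fintype.piFinset fun _ : Fin k => Icc 1 N).filter (fun v => ∏ i, v i = m),
    ∏ i, (v i : ℂ) ^ (-((α i : ℂ) * Complex.I))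

/-- The diagonal `∑_m τ_α(m) conj τ_β(m) / m`. -/
noncomputable def diagonal {k : ℕ} (α β : Fin k → ℝ) (N : ℕ) : ℂ :=
  ∑ m ∈ Icc 1 (N ^ k), tau α N m * star (tau β N m) / m

/-- The remainder of the shifted moment over the window `[u, u']`:
`∫_u^u' (∏_j Z(t+α_j) conj Z(t+β_j) - diagonal) dt`. -/
noncomputable def remainder {k : ℕ} (ω : ℕ → UnitAddCircle) (α β : Fin k → ℝ) (N : ℕ)
    (u u' : ℝ) : ℂ :=
  ∫ t in u..u', ((∏ j, Z ω N (t + α j)) * (∏ j, star (Z ω N (t + β j))) - diagonal α β N)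

/-- (1) For almost every `ω`: for all `k`, `A` and `ε > 0` there is `C` such that for all `T ≥ 1`, all
lengths `N ≤ T^A`, all shifts `α, β` in `[-T^A, T^A]^k` and all windows `[u, u']` in `[-T^A, T^A]` of
length at least `1` the remainder is at most `C √(u' - u) T^ε`.
(2) The exponent `1/2` of the length of the window is the true one: for the shifts `0`, `k ≥ 1`,
windows of length `H ≥ 2` and `N ≥ 4 H` the mean square of the remainder over `ω` is at least `c H`. -/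
theorem result :
    (∀ᵐ ω ∂uniform, ∀ (k A : ℕ) (ε : ℝ), 0 < ε → ∃ C : ℝ, ∀ (T : ℝ) (N : ℕ), 1 ≤ T → 1 ≤ N →
      (N : ℝ) ≤ T ^ A → ∀ α β : Fin k → ℝ, (∀ j, |α j| ≤ T ^ A) → (∀ j, |β j| ≤ T ^ A) →
      ∀ u u' : ℝ, |u| ≤ T ^ A → |u'| ≤ T ^ A → u + 1 ≤ u' →
      ‖remainder ω α β N u u'‖ ≤ C * Real.sqrt (u' - u) * T ^ ε) ∧
    (∃ c : ℝ, 0 < c ∧ ∀ (k N : ℕ) (u H : ℝ), 1 ≤ k → 2 ≤ H → 4 * H ≤ N →
      c * H ≤ ∫ ω, ‖remainder ω (fun _ : Fin k => 0) (fun _ => 0) N u (u + H)‖ ^ 2 ∂uniform) := by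
  constructor
  · have h : ∀ᵐ ω ∂uniform, ∀ k A n : ℕ, ∃ C : ℝ, ∀ R N : ℕ, 1 ≤ R → 1 ≤ N → N ≤ R ^ A →
        ∀ α β : Fin k → ℝ, (∀ j, |α j| ≤ (R : ℝ) ^ A) → (∀ j, |β j| ≤ (R : ℝ) ^ A) →
        ∀ u u' : ℝ, |u| ≤ (R : ℝ) ^ A → |u'| ≤ (R : ℝ) ^ A → u + 1 ≤ u' →
        ‖remainder ω α β N u u'‖ ≤ C * (Real.sqrt (u' - u) * (R : ℝ) ^ (1 / ((n : ℝ) + 1))) := by
      rw [ae_all_iff]
      intro k
      rw [ae_all_iff]
      intro A
      rw [ae_all_iff]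
      intro n
      exact Pool.Agent.Q255.ZS.ae_shift
        (Pool.Agent.Q257.HC.t_AEG (Pool.Agent.Q166.HC.hci Pool.Agent.Q166.HC.one
          Pool.Agent.Q166.HC.upd)) Pool.Agent.Q150.ZS.t_SYS Pool.Agent.Q150.ZS.t_WG
        Pool.Agent.Q261.ZS.t_EXP Pool.Agent.Q275.ZS.t_LIP0 k A _ (by positivity)
    filter_upwards [h] with ω hω k A ε hε
    obtain ⟨n, hn⟩ := exists_nat_one_div_lt hε
    obtain ⟨C, hC⟩ := hω k A n
    refine ⟨|C| * 2 ^ ε, fun T N hT hN hNT α β hα hβ u u' hu hu' huu => ?_⟩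
    have hT0 : (0 : ℝ) ≤ T := by linarith
    have h1 : T ≤ (⌈T⌉₊ : ℝ) := Nat.le_ceil T
    have hR1 : 1 ≤ ⌈T⌉₊ := Nat.one_le_ceil_iff.2 (by linarith)
    have h2 : (⌈T⌉₊ : ℝ) ≤ 2 * T := by
      have := Nat.ceil_lt_add_one hT0
      linarith
    have h3 : T ^ A ≤ (⌈T⌉₊ : ℝ) ^ A := pow_le_pow_left₀ hT0 h1 A
    have h4 := hC ⌈T⌉₊ N hR1 hN (by
      have : (N : ℝ) ≤ (⌈T⌉₊ : ℝ) ^ A := hNT.trans h3
      exact_mod_cast this) α β (fun j => (hα j).trans h3) (fun j => (hβ j).trans h3) u u'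
      (hu.trans h3) (hu'.trans h3) huu
    have hRR : (1 : ℝ) ≤ (⌈T⌉₊ : ℝ) := by exact_mod_cast hR1
    have h5 : (⌈T⌉₊ : ℝ) ^ (1 / ((n : ℝ) + 1)) ≤ 2 ^ ε * T ^ ε := by
      rw [← Real.mul_rpow (by norm_num) hT0]
      exact (Real.rpow_le_rpow_of_exponent_le hRR hn.le).trans
        (Real.rpow_le_rpow (by linarith) h2 hε.le)
    calc ‖remainder ω α β N u u'‖
        ≤ C * (Real.sqrt (u' - u) * (⌈T⌉₊ : ℝ) ^ (1 / ((n : ℝ) + 1))) := h4
      _ ≤ |C| * (Real.sqrt (u' - u) * (⌈T⌉₊ : ℝ) ^ (1 / ((n : ℝ) + 1))) :=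
          mul_le_mul_of_nonneg_right (le_abs_self C) (by positivity)
      _ ≤ |C| * (Real.sqrt (u' - u) * (2 ^ ε * T ^ ε)) := by gcongr
      _ = _ := by ring
  · exact Pool.Agent.Q275.ZS.t_LOZ

end Pool.Agent.Results.MP_fa2474_nt.AllShiftsForAlmostEveryTwist
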