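import Pool.Agent.Q97.RD.Sj

/-!
# Shifted moments of zeta with shifts of size `O(1/log T)` are comparable with the moment

Let `β_1, ..., β_n > 0` be real, `β` their sum, `A ≥ 0`. There are `0 < c ≤ C` such that for all large `T`,
all Gaussian windows of width `1 ≤ U ≤ T / log T` at `T` and all complex shifts `w_1, ..., w_n` with
`|w_i| ≤ A / log T` the shifted moment
`∫ ∏ |ζ(1/2 + it + w_i)|^(β_i) exp(-((t-T)/U)²) dt` lies between `c` and `C` times
`∫ |ζ(1/2 + it)|^β exp(-((t-T)/U)²) dt`.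

The upper bound is a bound for the maximal function of zeta over discs of radius `A / log T`. The
lower bound uses an inequality of Remez type: in the intervals of length `O(1/log T)` which
matter, each factor is small on a small set only.
-/

set_option autoImplicit false

open MeasureTheory Filter Set
open scoped ENNReal

namespace Pool.Agent.Results.MP_fa2474_nt.ComparableShifts

noncomputable section

/-- the point `1/2 + it` -/
def pt (t : ℝ) : ℂ := 1 / 2 + t * Complex.I

/-- the Gaussian window of width `U` at `T` -/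
def window (T U t : ℝ) : ℝ := Real.exp (-((t - T) / U) ^ 2)

/-- the moment of order `β` -/
def moment (β T U : ℝ) : ℝ := ∫ t : ℝ, ‖riemannZeta (pt t)‖ ^ β * window T U t

/-- the product of the shifted values times the window -/
def shiftedDens {n : ℕ} (β : Fin n → ℝ) (w : Fin n → ℂ) (T U t : ℝ) : ℝ :=
  (∏ i, ‖riemannZeta (pt t + w i)‖ ^ β i) * window T U t

/-- the shifted moment with exponents `β_i` and shifts `w_i` -/
def shifted {n : ℕ} (β : Fin n → ℝ) (w : Fin n → ℂ) (T U : ℝ) : ℝ :=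
  ∫ t : ℝ, shiftedDens β w T U t

theorem pt_eq : pt = Q97.RD.pp := by
  funext t
  simp [pt, Q97.RD.pp]

theorem moment_eq (β T U : ℝ) : moment β T U = Q97.RB.MB β T U (1 / 2) := by
  unfold moment Q97.RB.MB
  rw [pt_eq]
  rfl

theorem shiftedDens_nonneg {n : ℕ} (β : Fin n → ℝ) (w : Fin n → ℂ) (T U t : ℝ) :
    0 ≤ shiftedDens β w T U t := by
  unfold shiftedDens window
  positivity

theorem zeta_cont {w : ℂ} (hw : ‖w‖ ≤ 1 / 4) :
    Continuous (fun t : ℝ => riemannZeta (pt t + w)) := by
  have hpc : Continuous (fun t : ℝ => pt t + w) := by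
    unfold pt
    fun_prop
  refine continuous_iff_continuousAt.mpr fun t => ?_
  have hne : pt t + w ≠ 1 := by
    intro h
    have h1 := congrArg Complex.re h
    have h2 : (pt t).re = 1 / 2 := by rw [pt_eq, Q97.RD.pp_re]
    rw [Complex.add_re, h2, Complex.one_re] at h1
    have h3 := (Complex.abs_re_le_norm w).trans hw
    rw [abs_le] at h3
    linarith [h3.2]
  exact ContinuousAt.comp (f := fun t : ℝ => pt t + w) (g := riemannZeta)
    (differentiableAt_riemannZeta hne).continuousAt hpc.continuousAt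

theorem shiftedDens_cont {n : ℕ} {β : Fin n → ℝ} (hβ : ∀ i, 0 < β i) {w : Fin n → ℂ}
    (hw : ∀ i, ‖w i‖ ≤ 1 / 4) (T U : ℝ) : Continuous (shiftedDens β w T U) := by
  unfold shiftedDens
  refine Continuous.mul (continuous_finsetProd _ fun i _ => ?_) (by unfold window; fun_prop)
  exact (zeta_cont (hw i)).norm.rpow_const fun _ => Or.inr (hβ i).le

theorem result {n : ℕ} (hn : 0 < n) (β : Fin n → ℝ) (hβ : ∀ i, 0 < β i) (A : ℝ) (hA : 0 ≤ A) :
    ∃ c C : ℝ, 0 < c ∧ 0 < C ∧ ∀ᶠ T : ℝ in atTop, ∀ U : ℝ, 1 ≤ U → U ≤ T / Real.log T →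
      0 < moment (∑ i, β i) T U ∧
      ∀ w : Fin n → ℂ, (∀ i, ‖w i‖ ≤ A / Real.log T) →
        Integrable (shiftedDens β w T U) ∧
        c * moment (∑ i, β i) T U ≤ shifted β w T U ∧
        shifted β w T U ≤ C * moment (∑ i, β i) T U := by
  have : Nonempty (Fin n) := ⟨⟨0, hn⟩⟩
  have hb0 : 0 < ∑ i, β i := Finset.sum_pos (fun i _ => hβ i) Finset.univ_nonempty
  obtain ⟨c, hc, hlow⟩ := Q97.RD.shift_low hn hβ hA
  obtain ⟨C, hC, hup⟩ := Q97.RD.shift_up hn hβ hA
  refine ⟨c, C, hc, hC, ?_⟩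
  filter_upwards [hlow, hup, Q97.RB.tilted hb0 one_pos one_pos, eventually_ge_atTop 3,
    (Q97.MM.log_div_tendsto A).eventually (gt_mem_nhds (show (0 : ℝ) < 1 / 4 by norm_num))]
    with T h1 h2 h3 hT h4 U hU1 hU2
  have h : Q97.MM.Adm T U := ⟨hT, hU1, hU2⟩
  have hL := h.log
  rw [abs_of_nonneg (by positivity)] at h4
  rw [moment_eq]
  have hM := (h3 U h).1
  refine ⟨hM, fun w hw => ?_⟩
  have hcont := shiftedDens_cont hβ (w := w) (fun i => (hw i).trans h4.le) T U
  have e1 : ∀ x : ℝ, (∏ i, ‖riemannZeta (Q97.RD.pp x + w i)‖ ^ β i) * Q97.MM.wt T U x =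
      shiftedDens β w T U x := by
    intro x
    unfold shiftedDens
    rw [pt_eq]
    rfl
  have k1 := h1 U h w hw
  have k2 := h2 U h w hw
  simp only [e1] at k1 k2
  have hint : Integrable (shiftedDens β w T U) := by
    refine ⟨hcont.aestronglyMeasurable, ?_⟩
    rw [hasFiniteIntegral_iff_ofReal (Eventually.of_forall (shiftedDens_nonneg β w T U))]
    exact lt_of_le_of_lt k2 ENNReal.ofReal_lt_top
  have e2 : ∫⁻ x, ENNReal.ofReal (shiftedDens β w T U x) =
      ENNReal.ofReal (shifted β w T U) :=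
    (ofReal_integral_eq_lintegral_ofReal hint
      (Eventually.of_forall (shiftedDens_nonneg β w T U))).symm
  rw [e2] at k1 k2
  have h0 : 0 ≤ shifted β w T U := integral_nonneg (shiftedDens_nonneg β w T U)
  exact ⟨hint, (ENNReal.ofReal_le_ofReal_iff h0).mp k1,
    (ENNReal.ofReal_le_ofReal_iff (by positivity)).mp k2⟩

end

end Pool.Agent.Results.MP_fa2474_nt.ComparableShifts
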