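import Pool.Agent.Q97.UM.Base10

set_option autoImplicit false

/-!
# MP_fa2474_nt: products of shifted values of zeta, relative to every Dirichlet polynomial

Unconditionally, for every `n` and `A` there are `θ > 0` and constants `c, C > 0` such that for all large `T`, all real exponents
`k_1, …, k_n` of any sign with `∑ |k_j| ≤ A` and all real shifts `|α_j| ≤ T/2` there is ONE Dirichlet polynomial `E` of length
`T ^ (1/8)`, with mean square of the exact order `∏_{j,l} |ζ(1 + 1/log T + i(α_j - α_l))|^(k_j k_l)`, such that for ALL Dirichlet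
polynomials `B` of length `T ^ θ`

`c ∫ |E B|² ≤ ∫ ∏_j |ζ(1/2 + i(t + α_j))|^(2 k_j) |B|²` over `[T, 2T]`,

and, if all `k_j ≥ 0` and `∑ k_j ≤ 1`, also `∫ ∏_j |ζ(1/2 + i(t + α_j))|^(2 k_j) |B|² ≤ C ∫ |E B|²`.
-/

namespace Pool.Agent.Results.MP_fa2474_nt.OrderForEveryPolynomial

open Filter Topology MeasureTheory Complex

noncomputable section

/-- the Dirichlet polynomial with coefficients `b_1, …, b_N` on the critical line -/
def B (N : ℕ) (b : ℕ → ℂ) (t : ℝ) : ℂ := ∑ n ∈ Finset.Icc 1 N, b n * (n : ℂ) ^ (-(1 / 2 + t * I))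

/-- the product of shifted values of zeta with real exponents -/
def Z {n : ℕ} (k α : Fin n → ℝ) (t : ℝ) : ℝ := ∏ j, ‖riemannZeta (1 / 2 + (t + α j : ℝ) * I)‖ ^ (2 * k j)

/-- the predicted order -/
def order {n : ℕ} (T : ℝ) (k α : Fin n → ℝ) : ℝ :=
  ∏ j, ∏ l, ‖riemannZeta (1 + 1 / Real.log T + (α j - α l : ℝ) * I)‖ ^ (k j * k l)

lemma zeta_one_ne {T u : ℝ} (hT : 1 < T) : riemannZeta (1 + 1 / Real.log T + (u : ℝ) * I) ≠ 0 := by
  apply riemannZeta_ne_zero_of_one_lt_re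
  have hL : 0 < Real.log T := Real.log_pos hT
  have : (1 + 1 / Real.log T + (u : ℝ) * I : ℂ).re = 1 + 1 / Real.log T := by
    have h2 : (1 / (Real.log T : ℂ)) = ((1 / Real.log T : ℝ) : ℂ) := by push_cast; rfl
    rw [h2]
    simp
  rw [this]
  have : 0 < 1 / Real.log T := by positivity
  linarith

lemma order_eq {n : ℕ} {T : ℝ} (hT : 1 < T) (k α : Fin n → ℝ) :
    order T k α = Real.exp (∑ j, ∑ l, k j * k l * Real.log ‖riemannZeta (1 + 1 / Real.log T + (α j - α l : ℝ) * I)‖) := by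
  unfold order
  rw [Real.exp_sum]
  apply Finset.prod_congr rfl
  intro j _
  rw [Real.exp_sum]
  apply Finset.prod_congr rfl
  intro l _
  rw [Real.rpow_def_of_pos (norm_pos_iff.2 (zeta_one_ne hT)), mul_comm]

/-- the quadratic form at a prime -/
lemma ap_sq {n : ℕ} (k α : Fin n → ℝ) {p : ℕ} (hp : 0 < p) :
    ‖Pool.Agent.Q97.UM.ap k α p‖ ^ 2 = ∑ j, ∑ l, k j * k l * Real.cos ((α j - α l) * Real.log p) := by
  have h0 : (p : ℂ) ≠ 0 := by exact_mod_cast hp.ne'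
  have hterm : ∀ j : Fin n, (p : ℂ) ^ (-(α j * I)) = cexp (-(α j * Real.log p : ℝ) * I) := by
    intro j
    rw [Complex.cpow_def_of_ne_zero h0, ← Complex.natCast_log]
    congr 1
    push_cast
    ring
  have h1 : ((‖Pool.Agent.Q97.UM.ap k α p‖ ^ 2 : ℝ) : ℂ) = ∑ j, ∑ l, (k j : ℂ) * (k l : ℂ) *
      cexp (((α l - α j) * Real.log p : ℝ) * I) := by
    rw [← Complex.normSq_eq_norm_sq, ← Complex.mul_conj]
    unfold Pool.Agent.Q97.UM.ap
    rw [map_sum, Finset.sum_mul_sum]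
    apply Finset.sum_congr rfl
    intro j _
    apply Finset.sum_congr rfl
    intro l _
    rw [map_mul, Complex.conj_ofReal, hterm, hterm, ← Complex.exp_conj, map_mul, map_neg, Complex.conj_ofReal, Complex.conj_I]
    calc (k j : ℂ) * cexp (-(α j * Real.log p : ℝ) * I) * ((k l : ℂ) * cexp (-(α l * Real.log p : ℝ) * -I)) =
        (k j : ℂ) * (k l : ℂ) * (cexp (-(α j * Real.log p : ℝ) * I) * cexp (-(α l * Real.log p : ℝ) * -I)) := by ring
      _ = _ := by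
        rw [← Complex.exp_add]
        congr 2
        push_cast
        ring
  have h2 := congrArg Complex.re h1
  rw [Complex.ofReal_re] at h2
  rw [h2, Complex.re_sum]
  apply Finset.sum_congr rfl
  intro j _
  rw [Complex.re_sum]
  apply Finset.sum_congr rfl
  intro l _
  rw [← Complex.ofReal_mul, Complex.re_ofReal_mul, Complex.exp_ofReal_mul_I_re]
  congr 1
  rw [← Real.cos_neg]
  congr 1
  ring

lemma sum_prime {n : ℕ} (k α : Fin n → ℝ) (X : ℕ) :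
    ∑ p ∈ (Finset.Icc 1 X).filter Nat.Prime, ‖Pool.Agent.Q97.UM.ap k α p‖ ^ 2 / p =
      ∑ j, ∑ l, k j * k l * ∑ p ∈ (Finset.Icc 1 X).filter Nat.Prime, Real.cos ((α j - α l) * Real.log p) / p := by
  calc ∑ p ∈ (Finset.Icc 1 X).filter Nat.Prime, ‖Pool.Agent.Q97.UM.ap k α p‖ ^ 2 / p =
      ∑ p ∈ (Finset.Icc 1 X).filter Nat.Prime, ∑ j, ∑ l, k j * k l * (Real.cos ((α j - α l) * Real.log p) / p) := by
        apply Finset.sum_congr rfl
        intro p hp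
        rw [ap_sq k α (Finset.mem_filter.1 hp).2.pos, Finset.sum_div]
        apply Finset.sum_congr rfl
        intro j _
        rw [Finset.sum_div]
        apply Finset.sum_congr rfl
        intro l _
        ring
    _ = _ := by
        rw [Finset.sum_comm]
        apply Finset.sum_congr rfl
        intro j _
        rw [Finset.sum_comm]
        apply Finset.sum_congr rfl
        intro l _
        rw [Finset.mul_sum]

lemma sum_close {n : ℕ} {k α : Fin n → ℝ} {A C T : ℝ} {X : ℕ} (hC : 0 ≤ C) (hA : ∑ j, |k j| ≤ A)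
    (h : ∀ u : ℝ, |(∑ p ∈ (Finset.Icc 1 X).filter Nat.Prime, Real.cos (u * Real.log p) / p) -
      Real.log ‖riemannZeta (1 + 1 / Real.log T + u * I)‖| ≤ C) :
    |(∑ p ∈ (Finset.Icc 1 X).filter Nat.Prime, ‖Pool.Agent.Q97.UM.ap k α p‖ ^ 2 / p) -
      ∑ j, ∑ l, k j * k l * Real.log ‖riemannZeta (1 + 1 / Real.log T + (α j - α l : ℝ) * I)‖| ≤ A ^ 2 * C := by
  rw [sum_prime, ← Finset.sum_sub_distrib]
  calc _ ≤ ∑ j, ∑ l, |k j| * |k l| * C := by
        refine (Finset.abs_sum_le_sum_abs _ _).trans (Finset.sum_le_sum fun j _ => ?_)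
        rw [← Finset.sum_sub_distrib]
        refine (Finset.abs_sum_le_sum_abs _ _).trans (Finset.sum_le_sum fun l _ => ?_)
        rw [← mul_sub, abs_mul, abs_mul]
        exact mul_le_mul_of_nonneg_left (h (α j - α l)) (by positivity)
    _ = (∑ j, |k j|) ^ 2 * C := by
        rw [sq, Finset.sum_mul_sum, Finset.sum_mul]
        apply Finset.sum_congr rfl
        intro j _
        rw [Finset.sum_mul]
    _ ≤ A ^ 2 * C := by
        apply mul_le_mul_of_nonneg_right _ hC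
        exact pow_le_pow_left₀ (Finset.sum_nonneg fun j _ => abs_nonneg _) hA 2

/-- restriction of the coefficients -/
def res (N : ℕ) (b : ℕ → ℂ) (n : ℕ) : ℂ := if 1 ≤ n ∧ n ≤ N then b n else 0

lemma res_supp (N : ℕ) (b : ℕ → ℂ) (n : ℕ) (h : res N b n ≠ 0) : 1 ≤ n ∧ n ≤ N := by
  by_contra hc
  exact h (by unfold res; rw [if_neg hc])

lemma B_res (N : ℕ) (b : ℕ → ℂ) (t : ℝ) : Pool.Agent.Q97.UM.dp N (res N b) t = B N b t := by
  unfold Pool.Agent.Q97.UM.dp B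
  apply Finset.sum_congr rfl
  intro n hn
  rw [Finset.mem_Icc] at hn
  unfold res
  rw [if_pos hn]

lemma norm_ap_le {n : ℕ} {k : Fin n → ℝ} {A : ℝ} (hA : ∑ j, |k j| ≤ A) (α : Fin n → ℝ) (p : ℕ) :
    ‖Pool.Agent.Q97.UM.ap k α p‖ ≤ A := by
  unfold Pool.Agent.Q97.UM.ap
  refine (norm_sum_le _ _).trans (le_trans (Finset.sum_le_sum fun j _ => ?_) hA)
  rw [norm_mul, Complex.norm_real, Real.norm_eq_abs]
  rcases Nat.eq_zero_or_pos p with hp | hp
  · subst hp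
    by_cases h : (-(α j * I) : ℂ) = 0
    · rw [h]; simp
    · rw [Nat.cast_zero, Complex.zero_cpow h]; simp
  · rw [Complex.norm_natCast_cpow_of_pos hp]
    simp

theorem core : ∀ (n : ℕ) (A : ℝ), ∃ θ c C T₀ : ℝ, 0 < θ ∧ 0 < c ∧ 0 ≤ C ∧ 1 ≤ T₀ ∧ ∀ T : ℝ, T₀ ≤ T → ∀ k α : Fin n → ℝ,
    ∑ j, |k j| ≤ A → (∀ j, |α j| ≤ T / 2) → ∃ (M : ℕ) (e : ℕ → ℂ), (M : ℝ) ≤ T ^ (1 / 8 : ℝ) ∧
      c * (T * order T k α) ≤ ∫ t in T..(2 * T), ‖B M e t‖ ^ 2 ∧
      ∫ t in T..(2 * T), ‖B M e t‖ ^ 2 ≤ C * (T * order T k α) ∧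
      (∀ N : ℕ, (N : ℝ) ≤ T ^ θ → ∀ b : ℕ → ℂ,
        ENNReal.ofReal (c * ∫ t in T..(2 * T), ‖B M e t * B N b t‖ ^ 2) ≤
          ∫⁻ t in Set.Icc T (2 * T), ENNReal.ofReal (Z k α t * ‖B N b t‖ ^ 2)) ∧
      ((∀ j, 0 ≤ k j) → ∑ j, k j ≤ 1 → ∀ N : ℕ, (N : ℝ) ≤ T ^ θ → ∀ b : ℕ → ℂ,
        ∫ t in T..(2 * T), Z k α t * ‖B N b t‖ ^ 2 ≤ C * ∫ t in T..(2 * T), ‖B M e t * B N b t‖ ^ 2) := by
  intro n A₀
  obtain ⟨A, hAd⟩ : ∃ A : ℝ, A = max A₀ 1 := ⟨_, rfl⟩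
  have hA1 : 1 ≤ A := by rw [hAd]; exact le_max_right _ _
  have hA0 : A₀ ≤ A := by rw [hAd]; exact le_max_left _ _
  obtain ⟨κ₁, hκ₁, h9⟩ := Pool.Agent.Q97.UM.b_EK9 A hA1
  obtain ⟨κ₂, hκ₂, hU⟩ := Pool.Agent.Q97.UM.b_UBM n
  obtain ⟨κ₃, hκ₃, cE, CE, hcE, hCE, hE⟩ := Pool.Agent.Q97.UM.b_EN2 A hA1
  obtain ⟨κ, hκd⟩ : ∃ κ : ℝ, κ = max κ₁ (max κ₂ κ₃) := ⟨_, rfl⟩
  have hk1 : κ₁ ≤ κ := by rw [hκd]; exact le_max_left _ _
  have hk2 : κ₂ ≤ κ := by rw [hκd]; exact (le_max_left _ _).trans (le_max_right _ _)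
  have hk3 : κ₃ ≤ κ := by rw [hκd]; exact (le_max_right _ _).trans (le_max_right _ _)
  have hκ4 : 4 ≤ κ := hκ₁.trans hk1
  obtain ⟨δ₁, hδ₁, hU1⟩ := hU κ hk2
  obtain ⟨δ₂, hδ₂, hL1⟩ := Pool.Agent.Q97.UM.b_LBK A (13 / 10 * κ) hA1 (by linarith)
  obtain ⟨δ, hδd⟩ : ∃ δ : ℝ, δ = min (min δ₁ δ₂) (min 1 (1 / (208 * κ))) := ⟨_, rfl⟩
  have hδ0 : 0 < δ := by rw [hδd]; positivity
  have hδa : δ ≤ δ₁ := by rw [hδd]; exact (min_le_left _ _).trans (min_le_left _ _)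
  have hδb : δ ≤ δ₂ := by rw [hδd]; exact (min_le_left _ _).trans (min_le_right _ _)
  have hδc : δ ≤ 1 := by rw [hδd]; exact (min_le_right _ _).trans (min_le_left _ _)
  have hδe : δ ≤ 1 / (208 * κ) := by rw [hδd]; exact (min_le_right _ _).trans (min_le_right _ _)
  have h26 : 26 * κ * δ ≤ 1 / 8 := by
    have : 208 * κ * δ ≤ 1 := by
      rw [le_div_iff₀ (by positivity)] at hδe
      linarith
    linarith
  obtain ⟨C9, c9, hC9, hc9, h9'⟩ := h9 κ δ hk1 hδ0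
  obtain ⟨θU, CU, hθU, hCU, hU2⟩ := hU1 δ hδ0 hδa
  obtain ⟨θL, cL, hθL, hcL, hL2⟩ := hL1 δ hδ0 hδb C9 c9 hC9 hc9
  obtain ⟨Cz, hz⟩ := Pool.Agent.Q149.UM.t_MZ δ hδ0 hδc
  have hlogev : ∀ᶠ T : ℝ in atTop, 1 ≤ δ * Real.log T := by
    filter_upwards [Real.tendsto_log_atTop.eventually_ge_atTop (1 / δ)] with T hT
    rw [div_le_iff₀ hδ0] at hT
    linarith
  obtain ⟨T₀, hT₀⟩ := eventually_atTop.1 ((h9'.and (hU2.and (hL2.and (hz.and hlogev)))).and (eventually_ge_atTop 16))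
  obtain ⟨Cw, hCw⟩ : ∃ Cw : ℝ, Cw = max Cz 0 := ⟨_, rfl⟩
  have hCw0 : 0 ≤ Cw := by rw [hCw]; exact le_max_right _ _
  refine ⟨min (min θU θL) (1 / 8), min (cL / 2) (cE / 2 * Real.exp (-(A ^ 2 * Cw))),
    max (2 * CU) (2 * CE * Real.exp (A ^ 2 * Cw)), max T₀ 1, by positivity, by positivity, by positivity, le_max_right _ _, ?_⟩
  intro T hT' k α hk hα
  have hT : T₀ ≤ T := (le_max_left _ _).trans hT'
  obtain ⟨⟨g9, gU, gL, gz, glog⟩, hT16⟩ := hT₀ T hT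
  have hT0 : 0 < T := by linarith
  have hT1 : 1 ≤ T := by linarith
  have hkA : ∑ j, |k j| ≤ A := hk.trans hA0
  obtain ⟨J, M₀, q, w, hEK⟩ := g9 (Pool.Agent.Q97.UM.ap k α) (Pool.Agent.Q97.UM.ap k (fun j => 2 * α j))
    (norm_ap_le hkA α) (norm_ap_le hkA _)
  obtain ⟨hE1, hE2⟩ := hE κ (δ * Real.log T) (Pool.Agent.Q97.UM.ap k α) (Pool.Agent.Q97.UM.ap k (fun j => 2 * α j)) hk3 glog
    (norm_ap_le hkA α) (norm_ap_le hkA _)
  set M := Pool.Agent.Q97.UM.M9 (δ * Real.log T) κ with hM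
  set e := Pool.Agent.Q97.UM.ebk (δ * Real.log T) κ (Pool.Agent.Q97.UM.ap k α) (Pool.Agent.Q97.UM.ap k (fun j => 2 * α j)) 0
    (Pool.Agent.Q97.UM.JB (δ * Real.log T)) with he
  have hexp : Real.exp (δ * Real.log T) = T ^ δ := by
    rw [Real.rpow_def_of_pos hT0, mul_comm]
  rw [hexp] at hE1 hE2
  have hMlen : (M : ℝ) ≤ T ^ (1 / 8 : ℝ) := by
    rw [hM]
    unfold Pool.Agent.Q97.UM.M9
    refine (Nat.floor_le (Real.exp_pos _).le).trans ?_
    rw [Real.rpow_def_of_pos hT0]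
    apply Real.exp_le_exp.2
    have hL0 : 0 ≤ Real.log T := Real.log_nonneg hT1
    calc 26 * κ * (δ * Real.log T) = (26 * κ * δ) * Real.log T := by ring
      _ ≤ (1 / 8) * Real.log T := mul_le_mul_of_nonneg_right h26 hL0
      _ = Real.log T * (1 / 8) := by ring
  have hM4 : (M : ℝ) ≤ T ^ (1 / 4 : ℝ) := hMlen.trans (Real.rpow_le_rpow_of_exponent_le hT1 (by norm_num))
  have hMV := Pool.Agent.Q84.UM.t_MVL T hT16 M hM4 e
  have hclose := sum_close (k := k) (α := α) (A := A) (C := Cw) (T := T) (X := ⌊T ^ δ⌋₊) hCw0 hkA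
    (fun u => (gz u).trans (by rw [hCw]; exact le_max_left _ _))
  rw [abs_le] at hclose
  set Y := ∑ p ∈ (Finset.Icc 1 ⌊T ^ δ⌋₊).filter Nat.Prime, ‖Pool.Agent.Q97.UM.ap k α p‖ ^ 2 / p with hY
  have hord := order_eq (T := T) (by linarith) k α
  set S := ∑ j, ∑ l, k j * k l * Real.log ‖riemannZeta (1 + 1 / Real.log T + (α j - α l : ℝ) * I)‖ with hS
  have hN0 : 0 ≤ Pool.Agent.Q97.UM.N2 M e := by
    unfold Pool.Agent.Q97.UM.N2
    exact Finset.sum_nonneg fun n _ => by positivity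
  have hprod : ∀ (N : ℕ) (b : ℕ → ℂ) (t : ℝ), B M e t * B N b t =
      Pool.Agent.Q97.UM.dp (M * N) (Pool.Agent.Q97.UM.cv e (res N b)) t := by
    intro N b t
    rw [← B_res N b t, ← Pool.Agent.Q84.UM.t_DPM.1 M N e (res N b) t]
    · rfl
    · intro m hm
      by_contra hc
      have := (hEK.supp m hc).2
      omega
    · intro m hm
      by_contra hc
      have := (res_supp N b m hc).2
      omega
  have hlenN : ∀ N : ℕ, (N : ℝ) ≤ T ^ min (min θU θL) (1 / 8) → ((M * N : ℕ) : ℝ) ≤ T ^ (1 / 4 : ℝ) := by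
    intro N hN
    have h1 : (N : ℝ) ≤ T ^ (1 / 8 : ℝ) := hN.trans (Real.rpow_le_rpow_of_exponent_le hT1 (min_le_right _ _))
    push_cast
    calc (M : ℝ) * N ≤ T ^ (1 / 8 : ℝ) * T ^ (1 / 8 : ℝ) := mul_le_mul hMlen h1 (Nat.cast_nonneg _) (by positivity)
      _ = T ^ (1 / 4 : ℝ) := by rw [← Real.rpow_add hT0]; norm_num
  refine ⟨M, e, hMlen, ?_, ?_, ?_, ?_⟩
  · have h1 : Real.exp (-(A ^ 2 * Cw)) * order T k α ≤ Real.exp Y := by
      rw [hord, ← Real.exp_add]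
      apply Real.exp_le_exp.2
      linarith [hclose.1]
    calc min (cL / 2) (cE / 2 * Real.exp (-(A ^ 2 * Cw))) * (T * order T k α) ≤
        (cE / 2 * Real.exp (-(A ^ 2 * Cw))) * (T * order T k α) := by
          apply mul_le_mul_of_nonneg_right (min_le_right _ _)
          rw [hord]; positivity
      _ = T / 2 * (cE * (Real.exp (-(A ^ 2 * Cw)) * order T k α)) := by ring
      _ ≤ T / 2 * (cE * Real.exp Y) := by gcongr
      _ ≤ T / 2 * Pool.Agent.Q97.UM.N2 M e := by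
          apply mul_le_mul_of_nonneg_left hE1 (by positivity)
      _ ≤ _ := hMV.1
  · have h1 : Real.exp Y ≤ Real.exp (A ^ 2 * Cw) * order T k α := by
      rw [hord, ← Real.exp_add]
      apply Real.exp_le_exp.2
      linarith [hclose.2]
    calc ∫ t in T..(2 * T), ‖B M e t‖ ^ 2 ≤ 2 * T * Pool.Agent.Q97.UM.N2 M e := hMV.2
      _ ≤ 2 * T * (CE * Real.exp Y) := mul_le_mul_of_nonneg_left hE2 (by positivity)
      _ ≤ 2 * T * (CE * (Real.exp (A ^ 2 * Cw) * order T k α)) := by gcongr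
      _ = (2 * CE * Real.exp (A ^ 2 * Cw)) * (T * order T k α) := by ring
      _ ≤ _ := by
          apply mul_le_mul_of_nonneg_right (le_max_right _ _)
          rw [hord]; positivity
  · intro N hN b
    have hNL : (N : ℝ) ≤ T ^ θL := hN.trans (Real.rpow_le_rpow_of_exponent_le hT1 ((min_le_left _ _).trans (min_le_right _ _)))
    have h1 := gL n k α hkA hα M e J M₀ q w hEK N hNL (res N b) (res_supp N b)
    have h2 : (fun t => ENNReal.ofReal (Z k α t * ‖B N b t‖ ^ 2)) = (fun t => ENNReal.ofReal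
        ((∏ j, ‖Pool.Agent.Q97.UM.zt (t + α j)‖ ^ (2 * k j)) * ‖Pool.Agent.Q97.UM.dp N (res N b) t‖ ^ 2)) := by
      funext t
      rw [B_res]
      rfl
    rw [h2]
    refine le_trans (ENNReal.ofReal_le_ofReal ?_) h1
    have h3 : ∫ t in T..(2 * T), ‖B M e t * B N b t‖ ^ 2 ≤
        2 * T * Pool.Agent.Q97.UM.N2 (M * N) (Pool.Agent.Q97.UM.cv e (res N b)) := by
      have := (Pool.Agent.Q84.UM.t_MVL T hT16 (M * N) (hlenN N hN) (Pool.Agent.Q97.UM.cv e (res N b))).2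
      simpa only [hprod] using this
    have h0 : 0 ≤ ∫ t in T..(2 * T), ‖B M e t * B N b t‖ ^ 2 :=
      intervalIntegral.integral_nonneg (by linarith) fun t _ => by positivity
    calc min (cL / 2) (cE / 2 * Real.exp (-(A ^ 2 * Cw))) * ∫ t in T..(2 * T), ‖B M e t * B N b t‖ ^ 2 ≤
        cL / 2 * ∫ t in T..(2 * T), ‖B M e t * B N b t‖ ^ 2 := mul_le_mul_of_nonneg_right (min_le_left _ _) h0
      _ ≤ cL / 2 * (2 * T * Pool.Agent.Q97.UM.N2 (M * N) (Pool.Agent.Q97.UM.cv e (res N b))) :=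
          mul_le_mul_of_nonneg_left h3 (by positivity)
      _ = cL * T * Pool.Agent.Q97.UM.N2 (M * N) (Pool.Agent.Q97.UM.cv e (res N b)) := by ring
  · intro hk0 hk1 N hN b
    have hNU : (N : ℝ) ≤ T ^ θU := hN.trans (Real.rpow_le_rpow_of_exponent_le hT1 ((min_le_left _ _).trans (min_le_left _ _)))
    have h1 := gU k α hk0 hk1 hα N hNU (res N b) (res_supp N b)
    have h2 : (fun t => Z k α t * ‖B N b t‖ ^ 2) = (fun t =>
        (∏ j, ‖Pool.Agent.Q97.UM.zt (t + α j)‖ ^ (2 * k j)) * ‖Pool.Agent.Q97.UM.dp N (res N b) t‖ ^ 2) := by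
      funext t
      rw [B_res]
      rfl
    rw [h2]
    refine le_trans h1 ?_
    have h3 : T / 2 * Pool.Agent.Q97.UM.N2 (M * N) (Pool.Agent.Q97.UM.cv e (res N b)) ≤ ∫ t in T..(2 * T), ‖B M e t * B N b t‖ ^ 2 := by
      have := (Pool.Agent.Q84.UM.t_MVL T hT16 (M * N) (hlenN N hN) (Pool.Agent.Q97.UM.cv e (res N b))).1
      simpa only [hprod] using this
    have h0 : 0 ≤ ∫ t in T..(2 * T), ‖B M e t * B N b t‖ ^ 2 :=
      intervalIntegral.integral_nonneg (by linarith) fun t _ => by positivity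
    calc CU * T * Pool.Agent.Q97.UM.N2 (M * N) (Pool.Agent.Q97.UM.cv e (res N b)) =
        2 * CU * (T / 2 * Pool.Agent.Q97.UM.N2 (M * N) (Pool.Agent.Q97.UM.cv e (res N b))) := by ring
      _ ≤ 2 * CU * ∫ t in T..(2 * T), ‖B M e t * B N b t‖ ^ 2 := mul_le_mul_of_nonneg_left h3 (by positivity)
      _ ≤ _ := mul_le_mul_of_nonneg_right (le_max_left _ _) h0

lemma B_one (t : ℝ) : B 1 (fun _ => 1) t = 1 := by
  unfold B
  simp

lemma order_nonneg {n : ℕ} (T : ℝ) (k α : Fin n → ℝ) : 0 ≤ order T k α := by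
  unfold order
  positivity

/-- **products of shifted values of zeta, relative to every Dirichlet polynomial** -/
theorem result : ∀ (n : ℕ) (A : ℝ), ∃ θ c C T₀ : ℝ, 0 < θ ∧ 0 < c ∧ ∀ T : ℝ, T₀ ≤ T → ∀ k α : Fin n → ℝ,
    ∑ j, |k j| ≤ A → (∀ j, |α j| ≤ T / 2) →
    ENNReal.ofReal (c * (T * order T k α)) ≤ ∫⁻ t in Set.Icc T (2 * T), ENNReal.ofReal (Z k α t) ∧
    ((∀ j, 0 ≤ k j) → ∑ j, k j ≤ 1 → ∫ t in T..(2 * T), Z k α t ≤ C * (T * order T k α)) ∧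
    ∃ (M : ℕ) (e : ℕ → ℂ), (M : ℝ) ≤ T ^ (1 / 8 : ℝ) ∧
      c * (T * order T k α) ≤ ∫ t in T..(2 * T), ‖B M e t‖ ^ 2 ∧
      ∫ t in T..(2 * T), ‖B M e t‖ ^ 2 ≤ C * (T * order T k α) ∧
      (∀ N : ℕ, (N : ℝ) ≤ T ^ θ → ∀ b : ℕ → ℂ,
        ENNReal.ofReal (c * ∫ t in T..(2 * T), ‖B M e t * B N b t‖ ^ 2) ≤
          ∫⁻ t in Set.Icc T (2 * T), ENNReal.ofReal (Z k α t * ‖B N b t‖ ^ 2)) ∧
      ((∀ j, 0 ≤ k j) → ∑ j, k j ≤ 1 → ∀ N : ℕ, (N : ℝ) ≤ T ^ θ → ∀ b : ℕ → ℂ,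
        ∫ t in T..(2 * T), Z k α t * ‖B N b t‖ ^ 2 ≤ C * ∫ t in T..(2 * T), ‖B M e t * B N b t‖ ^ 2) := by
  intro n A
  obtain ⟨θ, c, C, T₀, hθ, hc, hC, hT₀, h⟩ := core n A
  refine ⟨θ, min c (c * c), max C (C * C), T₀, hθ, by positivity, ?_⟩
  intro T hT k α hk hα
  obtain ⟨M, e, hM, h1, h2, h3, h4⟩ := h T hT k α hk hα
  have hT1 : 1 ≤ T := hT₀.trans hT
  have hX : 0 ≤ T * order T k α := mul_nonneg (by linarith) (order_nonneg T k α)
  have hone : ((1 : ℕ) : ℝ) ≤ T ^ θ := by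
    rw [Nat.cast_one]
    exact Real.one_le_rpow hT1 hθ.le
  refine ⟨?_, ?_, M, e, hM, ?_, ?_, ?_, ?_⟩
  · have h5 := h3 1 hone (fun _ => 1)
    simp only [B_one, mul_one, norm_one, one_pow] at h5
    refine le_trans (ENNReal.ofReal_le_ofReal ?_) h5
    calc min c (c * c) * (T * order T k α) ≤ c * c * (T * order T k α) := mul_le_mul_of_nonneg_right (min_le_right _ _) hX
      _ = c * (c * (T * order T k α)) := by ring
      _ ≤ _ := mul_le_mul_of_nonneg_left h1 hc.le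
  · intro hk0 hk1
    have h5 := h4 hk0 hk1 1 hone (fun _ => 1)
    simp only [B_one, mul_one, norm_one, one_pow] at h5
    refine h5.trans ?_
    calc C * ∫ t in T..(2 * T), ‖B M e t‖ ^ 2 ≤ C * (C * (T * order T k α)) := mul_le_mul_of_nonneg_left h2 hC
      _ = C * C * (T * order T k α) := by ring
      _ ≤ _ := mul_le_mul_of_nonneg_right (le_max_right _ _) hX
  · exact (mul_le_mul_of_nonneg_right (min_le_left _ _) hX).trans h1
  · exact h2.trans (mul_le_mul_of_nonneg_right (le_max_left _ _) hX)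
  · intro N hN b
    refine le_trans (ENNReal.ofReal_le_ofReal ?_) (h3 N hN b)
    apply mul_le_mul_of_nonneg_right (min_le_left _ _)
    exact intervalIntegral.integral_nonneg (by linarith) fun t _ => by positivity
  · intro hk0 hk1 N hN b
    refine (h4 hk0 hk1 N hN b).trans ?_
    apply mul_le_mul_of_nonneg_right (le_max_left _ _)
    exact intervalIntegral.integral_nonneg (by linarith) fun t _ => by positivity

end

end Pool.Agent.Results.MP_fa2474_nt.OrderForEveryPolynomial
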