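import Pool.Agent.Q80.BS.Tr

/-!
Every term of the recipe for the shifted moments of the zeta function, for all shifts: averages over
`2k` independent shifts of size `1 / log T` and over windows of length `T ^ u`.
-/

set_option autoImplicit false

namespace Pool.Agent.Results.MP_fa2474_nt.RecipeTermsAllShifts

open MeasureTheory Filter Topology Set ComplexConjugate
open scoped ContDiff

noncomputable section

variable {k : ℕ}

/-- The divisor function `τ_l(n)`: the sum over `d_1 d_2 ⋯ d_k = n` of `∏ j, d_j ^ l_j`. -/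
def tau (l : Fin k → ℂ) (n : ℕ) : ℂ :=
  ∑ d ∈ Nat.finMulAntidiag k n, ∏ j, (d j : ℂ) ^ (l j)

/-- The Euler factor of `F(s; a, b)` at the prime `p`. -/
def localFactor (s : ℂ) (a b : Fin k → ℂ) (p : ℕ) : ℂ :=
  (∏ j, ∏ l, (1 - (p : ℂ) ^ (-(2 * s + Complex.I * a j - Complex.I * b l)))) *
    ∑' m : ℕ, tau (fun j => Complex.I * b j) (p ^ m) * tau (fun j => -(Complex.I * a j)) (p ^ m) *
      (p : ℂ) ^ (-(2 * m * s))

/-- The arithmetic factor `F(s; a, b)`, an Euler product. -/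
def arithF (s : ℂ) (a b : Fin k → ℂ) : ℂ := ∏' p : Nat.Primes, localFactor s a b p

/-- `ζ_{(a, b)}(s)`, through `F(s; a, b)` and the product of `k ^ 2` zeta functions, for complex
shifts. -/
def zetaAB (s : ℂ) (a b : Fin k → ℂ) : ℂ :=
  arithF s a b * ∏ j, ∏ l, riemannZeta (2 * s + Complex.I * a j - Complex.I * b l)

/-- The factor `χ` of the functional equation `ζ(s) = χ(s) ζ(1 - s)`. -/
def chi (s : ℂ) : ℂ :=
  (Real.pi : ℂ) ^ (s - 1 / 2) * Complex.Gamma ((1 - s) / 2) / Complex.Gamma (s / 2)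

/-- `Z_{α, β}(t)`, where `γ = (α, β)` is indexed by `Fin k ⊕ Fin k`. -/
def Z (γ : Fin k ⊕ Fin k → ℝ) (t : ℝ) : ℂ :=
  ∏ j : Fin k, riemannZeta (1 / 2 + Complex.I * (t + γ (Sum.inl j))) *
    riemannZeta (1 / 2 - Complex.I * (t + γ (Sum.inr j)))

/-- `G_γ(σ)`, where `σ(γ)` has the coordinates `γ (σ i)`. -/
def G (γ : Fin k ⊕ Fin k → ℝ) (t : ℝ) (σ : Equiv.Perm (Fin k ⊕ Fin k)) : ℂ :=
  (∏ j : Fin k, if (σ (Sum.inl j)).isRight then
    chi (1 / 2 - Complex.I * t - Complex.I * γ (σ (Sum.inl j))) else 1) *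
  ∏ j : Fin k, if (σ (Sum.inr j)).isLeft then
    chi (1 / 2 + Complex.I * t + Complex.I * γ (σ (Sum.inr j))) else 1

/-- The Fourier transform `∫ p(ξ) e^{iξx} dξ`, for complex `x`. -/
def hat (p : ℝ → ℂ) (x : ℂ) : ℂ := ∫ ξ : ℝ, p ξ * Complex.exp (ξ * (x * Complex.I))

/-- The test function `∏ hat p_i(x_i) ∏ conj (hat q_j(y_j))` in the `2k` shifts `z = (x, y)`, with
its entire continuation. -/
def test (p q : Fin k → ℝ → ℂ) (z : Fin k ⊕ Fin k → ℂ) : ℂ :=
  (∏ i : Fin k, hat (p i) (z (Sum.inl i))) * ∏ j : Fin k, conj (hat (q j) (conj (z (Sum.inr j))))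

/-- The shifted contour: `z = (x, y)` becomes `(x - i, y + i)`. -/
def cont (z : Fin k ⊕ Fin k → ℝ) : Fin k ⊕ Fin k → ℂ :=
  Sum.elim (fun i => z (Sum.inl i) - Complex.I) (fun j => z (Sum.inr j) + Complex.I)

/-- The local average of `Z_γ / G_γ(σ)`: over the shifts `z / log T`, against the test function, and
over `t`, against the Gaussian weight with centre `T` and width `U`. -/
def tested (γ : Fin k ⊕ Fin k → ℝ) (σ : Equiv.Perm (Fin k ⊕ Fin k)) (p q : Fin k → ℝ → ℂ)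
    (T U : ℝ) : ℂ :=
  ∫ z : Fin k ⊕ Fin k → ℝ, test p q (fun e => (z (σ e) : ℂ)) *
    ∫ t : ℝ, Z (fun e => γ e + z e / Real.log T) t / G (fun e => γ e + z e / Real.log T) t σ *
      (Real.exp (-((t - T) / U) ^ 2) : ℂ)

/-- The average of the term `ζ_{σ(γ)}(1/2)` of the recipe over the shifts `z / log T`, on the
shifted contour. -/
def term (γ : Fin k ⊕ Fin k → ℝ) (σ : Equiv.Perm (Fin k ⊕ Fin k)) (p q : Fin k → ℝ → ℂ)
    (T : ℝ) : ℂ :=
  ∫ z : Fin k ⊕ Fin k → ℝ, test p q (cont z) *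
    zetaAB (1 / 2) (fun j => γ (σ (Sum.inl j)) + cont z (Sum.inl j) / Real.log T)
      (fun j => γ (σ (Sum.inr j)) + cont z (Sum.inr j) / Real.log T)

/-- The coincidences `α_i = β_j` of `σ(γ) = (α, β)`. -/
def Coin (γ : Fin k ⊕ Fin k → ℝ) (σ : Equiv.Perm (Fin k ⊕ Fin k)) (x : Fin k × Fin k) : Prop :=
  γ (σ (Sum.inl x.1)) = γ (σ (Sum.inr x.2))

instance (γ : Fin k ⊕ Fin k → ℝ) (σ : Equiv.Perm (Fin k ⊕ Fin k)) : DecidablePred (Coin γ σ) :=
  fun _ => Classical.propDecidable _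

/-- The number of coincidences. -/
def numCoin (γ : Fin k ⊕ Fin k → ℝ) (σ : Equiv.Perm (Fin k ⊕ Fin k)) : ℕ :=
  (Finset.univ.filter (Coin γ σ)).card

/-- The product of `ζ(1 + i(α_i - β_j))` over the pairs with `α_i ≠ β_j`, where
`σ(γ) = (α, β)`. -/
def zetaProd (γ : Fin k ⊕ Fin k → ℝ) (σ : Equiv.Perm (Fin k ⊕ Fin k)) : ℂ :=
  ∏ x : Fin k × Fin k, if Coin γ σ x then 1 else
    riemannZeta (1 + (γ (σ (Sum.inl x.1)) - γ (σ (Sum.inr x.2)) : ℝ) * Complex.I)

/-- The entry at `x` of the matrix with the entries `u` at the coincidences and `0` elsewhere. -/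
def entry (γ : Fin k ⊕ Fin k → ℝ) (σ : Equiv.Perm (Fin k ⊕ Fin k)) (u : {x // Coin γ σ x} → ℝ)
    (x : Fin k × Fin k) : ℝ := if h : Coin γ σ x then u ⟨x, h⟩ else 0

/-- The integral of `∏ p_i(row sum i) ∏ conj q_j(column sum j)` over the `k × k` matrices with
positive entries at the coincidences of `σ(γ)` and zeros elsewhere. -/
def transport (γ : Fin k ⊕ Fin k → ℝ) (σ : Equiv.Perm (Fin k ⊕ Fin k)) (p q : Fin k → ℝ → ℂ) : ℂ :=
  ∫ u : {x // Coin γ σ x} → ℝ in Set.univ.pi fun _ : {x // Coin γ σ x} => Ioi (0 : ℝ),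
    (∏ i : Fin k, p i (∑ j, entry γ σ u (i, j))) *
      ∏ j : Fin k, conj (q j (∑ i, entry γ σ u (i, j)))

/-- Admissible test data: all functions are smooth with compact support, `p_i` vanishes on the
right of `θ_i ≥ 0` and `∑ θ_i < u`. -/
def Adm (u : ℝ) (p q : Fin k → ℝ → ℂ) : Prop :=
  (∀ i, ContDiff ℝ ∞ (p i) ∧ HasCompactSupport (p i)) ∧
  (∀ i, ContDiff ℝ ∞ (q i) ∧ HasCompactSupport (q i)) ∧
  ∃ θ : Fin k → ℝ, (∀ i, 0 ≤ θ i ∧ ∀ x, θ i < x → p i x = 0) ∧ ∑ i, θ i < u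

open Pool.Agent.TH612.CF in
lemma zetaAB_eq (a b : Fin k → ℂ) : zetaAB (1 / 2) a b = zab a b := by
  unfold zetaAB zab arithF FH
  congr 1
  · refine tprod_congr fun p => ?_
    unfold localFactor lh lt
    congr 1
    · refine Finset.prod_congr rfl fun j _ => Finset.prod_congr rfl fun l _ => ?_
      congr 2
      ring
    · refine tsum_congr fun m => ?_
      have hp : ((p : ℕ) : ℂ) ≠ 0 := by exact_mod_cast p.2.ne_zero
      have e : ((p : ℕ) : ℂ) ^ (-(2 * (m : ℂ) * (1 / 2))) = (((p : ℕ) : ℂ) ^ m)⁻¹ := by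
        rw [← Complex.cpow_natCast, ← Complex.cpow_neg]
        congr 1; ring
      rw [e]
      rfl
  · refine Finset.prod_congr rfl fun j _ => Finset.prod_congr rfl fun l _ => ?_
    congr 1
    ring

open Pool.Agent.TH612.CF in
lemma arithF_eq (a b : Fin k → ℂ) : arithF (1 / 2) a b = FH a b := by
  unfold arithF FH
  refine tprod_congr fun p => ?_
  unfold localFactor lh lt
  congr 1
  · refine Finset.prod_congr rfl fun j _ => Finset.prod_congr rfl fun l _ => ?_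
    congr 2
    ring
  · refine tsum_congr fun m => ?_
    have hp : ((p : ℕ) : ℂ) ≠ 0 := by exact_mod_cast p.2.ne_zero
    have e : ((p : ℕ) : ℂ) ^ (-(2 * (m : ℂ) * (1 / 2))) = (((p : ℕ) : ℂ) ^ m)⁻¹ := by
      rw [← Complex.cpow_natCast, ← Complex.cpow_neg]
      congr 1; ring
    rw [e]
    rfl

/-- the functional equation on the critical line -/
lemma fe_zeta (t g : ℝ) : riemannZeta (1 / 2 + Complex.I * (t + g)) =
    Pool.Agent.TH612.CF.Xt t g * riemannZeta (1 / 2 - Complex.I * (t + g)) := by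
  set w : ℂ := 1 / 2 - Complex.I * (t + g) with hw
  have h1 : w.re = 1 / 2 := by rw [hw]; simp
  have h2 : 1 - w = 1 / 2 + Complex.I * (t + g) := by rw [hw]; ring
  have h3 := riemannZeta_one_sub (s := w) (fun n hn => by
    rw [hn] at h1
    simp at h1
    have : (0:ℝ) ≤ n := Nat.cast_nonneg n
    norm_num at h1
    linarith) (fun hn => by rw [hn] at h1; norm_num at h1)
  rw [← h2, h3]
  have h4 := Pool.Agent.TH612.CF.chi_XX (w := w) (by rw [h1]; norm_num) (by rw [h1]; norm_num)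
  have h5 : Pool.Agent.TH612.CF.Xt t g = Pool.Agent.W182.KO.XX w := by
    unfold Pool.Agent.TH612.CF.Xt
    rw [← h4, h2]
    congr 1
    ring
  rw [h5]
  rfl

lemma Z_sym (γ : Fin k ⊕ Fin k → ℝ) (t : ℝ) :
    Z γ t = (∏ j : Fin k, Pool.Agent.TH612.CF.Xt t (γ (Sum.inl j))) *
      ∏ e, riemannZeta (1 / 2 - Complex.I * (t + γ e)) := by
  unfold Z
  rw [Fintype.prod_sum_type, ← mul_assoc, ← Finset.prod_mul_distrib, ← Finset.prod_mul_distrib]
  refine Finset.prod_congr rfl fun j _ => ?_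
  rw [fe_zeta]

/-- `Z_γ = G_γ(σ) Z_{σ(γ)}` -/
lemma Z_swap (γ : Fin k ⊕ Fin k → ℝ) (t : ℝ) (σ : Equiv.Perm (Fin k ⊕ Fin k)) :
    Z γ t / G γ t σ = Z (fun e => γ (σ e)) t := by
  have him : ∀ i, |((γ i : ℝ) : ℂ).im| < 1 / 2 := fun i => by simp
  have h1 : G γ t σ = (∏ j : Fin k, Pool.Agent.TH612.CF.Xt t (γ (Sum.inl j))) *
      ∏ j : Fin k, (Pool.Agent.TH612.CF.Xt t (γ (σ (Sum.inl j))))⁻¹ :=
    Pool.Agent.TH612.CF.GG_eq t (γ := fun i => (γ i : ℂ)) him σ
  have h2 : ∀ i, Pool.Agent.TH612.CF.Xt t (γ i) ≠ 0 := fun i => Pool.Agent.TH612.CF.Xt_ne (him i)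
  have h3 : ∏ j : Fin k, Pool.Agent.TH612.CF.Xt t (γ (Sum.inl j)) ≠ 0 :=
    Finset.prod_ne_zero_iff.2 fun j _ => h2 _
  have h4 : ∏ j : Fin k, Pool.Agent.TH612.CF.Xt t (γ (σ (Sum.inl j))) ≠ 0 :=
    Finset.prod_ne_zero_iff.2 fun j _ => h2 _
  rw [h1, Z_sym γ, Z_sym fun e => γ (σ e),
    Equiv.prod_comp σ (fun e => riemannZeta (1 / 2 - Complex.I * (t + γ e))),
    Finset.prod_inv_distrib]
  field_simp

lemma Z_ff {T : ℝ} (hT : Real.log T ≠ 0) (b z : Fin k ⊕ Fin k → ℝ) (t : ℝ) :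
    Z (fun e => b e + z e / Real.log T) t =
      Q80.TM.ff k T t (fun e => ((z e + Real.log T * b e : ℝ) : ℂ)) := by
  have hL : (Real.log T : ℂ) ≠ 0 := Complex.ofReal_ne_zero.2 hT
  unfold Z Q80.TM.ff Q80.TM.zp Q80.TM.zm
  rw [Finset.prod_mul_distrib]
  congr 1
  · refine Finset.prod_congr rfl fun j _ => ?_
    congr 1
    push_cast
    field_simp
    ring
  · refine Finset.prod_congr rfl fun j _ => ?_
    congr 1
    push_cast
    field_simp
    ring

lemma two_pi_ne : (2 * Real.pi : ℂ) ≠ 0 := by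
  have : (Real.pi : ℂ) ≠ 0 := by exact_mod_cast Real.pi_ne_zero
  simp [this]

lemma test_eq (p q : Fin k → ℝ → ℂ) (z : Fin k ⊕ Fin k → ℝ) :
    test p q (fun e => (z e : ℂ)) =
      (2 * Real.pi : ℂ) ^ (2 * k) * ∏ e, _root_.Q80.VS.fe p q e (z e) := by
  have hpi := two_pi_ne
  have e1 : ∀ i : Fin k, _root_.Q80.VS.fe p q (Sum.inl i) (z (Sum.inl i)) =
      hat (p i) (z (Sum.inl i)) / (2 * Real.pi) := fun i => rfl
  have e2 : ∀ j : Fin k, _root_.Q80.VS.fe p q (Sum.inr j) (z (Sum.inr j)) =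
      conj (hat (q j) (conj (z (Sum.inr j) : ℂ))) / (2 * Real.pi) := fun j => by
    rw [Complex.conj_ofReal]
    show conj (hat (q j) (z (Sum.inr j)) / (2 * Real.pi)) = _
    rw [map_div₀, map_mul, Complex.conj_ofReal, map_ofNat]
  rw [Fintype.prod_sum_type]
  simp only [e1, e2, Finset.prod_div_distrib, Finset.prod_const, Finset.card_univ, Fintype.card_fin]
  unfold test
  rw [two_mul k, pow_add]
  field_simp

lemma test_cont (p q : Fin k → ℝ → ℂ) (z : Fin k ⊕ Fin k → ℝ) :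
    test p q (cont z) = (2 * Real.pi : ℂ) ^ (2 * k) * _root_.Q80.VS.GG p q z := by
  have hpi := two_pi_ne
  have e1 : ∀ i : Fin k, _root_.Q80.VS.ge p q (Sum.inl i) (z (Sum.inl i)) =
      hat (p i) (cont z (Sum.inl i)) / (2 * Real.pi) := fun i => by
    show W182.KO.P (p i) (1 + z (Sum.inl i) * Complex.I) / (2 * Real.pi) = _
    unfold hat W182.KO.P cont
    congr 2
    funext ξ
    congr 2
    show (ξ : ℂ) * (1 + z (Sum.inl i) * Complex.I) = ξ * ((z (Sum.inl i) - Complex.I) * Complex.I)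
    linear_combination (ξ : ℂ) * Complex.I_mul_I
  have e2 : ∀ j : Fin k, _root_.Q80.VS.ge p q (Sum.inr j) (z (Sum.inr j)) =
      conj (hat (q j) (conj (cont z (Sum.inr j)))) / (2 * Real.pi) := fun j => by
    show conj (W182.KO.P (q j) (1 + z (Sum.inr j) * Complex.I) / (2 * Real.pi)) = _
    rw [map_div₀, map_mul, Complex.conj_ofReal, map_ofNat]
    have e3 : conj (cont z (Sum.inr j)) = z (Sum.inr j) - Complex.I := by
      show conj ((z (Sum.inr j) : ℂ) + Complex.I) = _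
      rw [map_add, Complex.conj_ofReal, Complex.conj_I]
      ring
    rw [e3]
    unfold hat W182.KO.P
    congr 3
    funext ξ
    congr 2
    linear_combination (ξ : ℂ) * Complex.I_mul_I
  unfold _root_.Q80.VS.GG
  rw [Fintype.prod_sum_type]
  simp only [e1, e2, Finset.prod_div_distrib, Finset.prod_const, Finset.card_univ, Fintype.card_fin]
  unfold test
  rw [two_mul k, pow_add]
  field_simp

lemma tested_eq (γ : Fin k ⊕ Fin k → ℝ) (σ : Equiv.Perm (Fin k ⊕ Fin k)) (p q : Fin k → ℝ → ℂ)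
    {T : ℝ} (hT : Real.log T ≠ 0) (U : ℝ) :
    tested γ σ p q T U = (2 * Real.pi : ℂ) ^ (2 * k) * ∫ z : Fin k ⊕ Fin k → ℝ,
      (∏ e, _root_.Q80.VS.fe p q e (z e)) *
        Q80.TM.SS k T U (fun e => ((z e + Real.log T * γ (σ e) : ℝ) : ℂ)) := by
  unfold tested
  have h1 : ∀ z : Fin k ⊕ Fin k → ℝ, test p q (fun e => (z (σ e) : ℂ)) *
      ∫ t : ℝ, Z (fun e => γ e + z e / Real.log T) t / G (fun e => γ e + z e / Real.log T) t σ *
        (Real.exp (-((t - T) / U) ^ 2) : ℂ) =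
      (fun z' : Fin k ⊕ Fin k → ℝ => test p q (fun e => (z' e : ℂ)) *
        Q80.TM.SS k T U (fun e => ((z' e + Real.log T * γ (σ e) : ℝ) : ℂ)))
        (fun e => z (σ e)) := by
    intro z
    simp only
    congr 1
    unfold Q80.TM.SS
    congr 1
    funext t
    rw [Z_swap, Z_ff hT (fun e => γ (σ e)) (fun e => z (σ e))]
    rfl
  simp only [h1]
  have h2 := (volume_measurePreserving_piCongrLeft (fun _ : Fin k ⊕ Fin k => ℝ) σ).symm
  have h3 : ∀ z : Fin k ⊕ Fin k → ℝ,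
      (MeasurableEquiv.piCongrLeft (fun _ : Fin k ⊕ Fin k => ℝ) σ).symm z = fun e => z (σ e) := by
    intro z
    funext e
    rfl
  have h4 := h2.integral_comp'
    (g := fun z' : Fin k ⊕ Fin k → ℝ => test p q (fun e => (z' e : ℂ)) *
        Q80.TM.SS k T U (fun e => ((z' e + Real.log T * γ (σ e) : ℝ) : ℂ)))
  simp only [h3] at h4
  rw [h4, ← integral_const_mul]
  congr 1
  funext z
  rw [test_eq]
  ring

lemma term_eq (γ : Fin k ⊕ Fin k → ℝ) (σ : Equiv.Perm (Fin k ⊕ Fin k)) (p q : Fin k → ℝ → ℂ)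
    (T : ℝ) : term γ σ p q T = (2 * Real.pi : ℂ) ^ (2 * k) * ∫ z : Fin k ⊕ Fin k → ℝ,
      _root_.Q80.VS.GG p q z * _root_.Q80.BS.zs (fun e => γ (σ e)) (Real.log T) z := by
  unfold term
  rw [← integral_const_mul]
  congr 1
  funext z
  rw [test_cont, zetaAB_eq, mul_assoc]
  congr 2
  unfold _root_.Q80.BS.zs
  congr 1
  · funext j
    show (γ (σ (Sum.inl j)) : ℂ) + (z (Sum.inl j) - Complex.I) / Real.log T = _
    push_cast
    rfl
  · funext j
    show (γ (σ (Sum.inr j)) : ℂ) + (z (Sum.inr j) + Complex.I) / Real.log T = _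
    push_cast
    rfl

lemma coin_eq (γ : Fin k ⊕ Fin k → ℝ) (σ : Equiv.Perm (Fin k ⊕ Fin k)) (x : Fin k × Fin k) :
    Coin γ σ x ↔ _root_.Q80.BS.Co (fun e => γ (σ e)) x := Iff.rfl

lemma numCoin_eq (γ : Fin k ⊕ Fin k → ℝ) (σ : Equiv.Perm (Fin k ⊕ Fin k)) :
    numCoin γ σ = _root_.Q80.BS.nc (fun e => γ (σ e)) := by
  unfold numCoin _root_.Q80.BS.nc
  congr

lemma zetaProd_eq (γ : Fin k ⊕ Fin k → ℝ) (σ : Equiv.Perm (Fin k ⊕ Fin k)) :
    zetaProd γ σ = _root_.Q80.BS.zv (fun e => γ (σ e)) := by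
  unfold zetaProd _root_.Q80.BS.zv
  refine Finset.prod_congr rfl fun x _ => ?_
  by_cases h : Coin γ σ x
  · rw [if_pos h, if_pos ((coin_eq γ σ x).1 h)]
  · rw [if_neg h, if_neg (fun h' => h ((coin_eq γ σ x).2 h'))]
    rfl

lemma entry_eq (γ : Fin k ⊕ Fin k → ℝ) (σ : Equiv.Perm (Fin k ⊕ Fin k))
    (u : {x // Coin γ σ x} → ℝ) (x : Fin k × Fin k) :
    entry γ σ u x = _root_.Q80.BS.ex (fun e => γ (σ e)) u x := rfl

lemma transport_eq (γ : Fin k ⊕ Fin k → ℝ) (σ : Equiv.Perm (Fin k ⊕ Fin k))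
    (p q : Fin k → ℝ → ℂ) :
    transport γ σ p q = _root_.Q80.BS.TTb (fun e => γ (σ e)) p q := by
  unfold transport _root_.Q80.BS.TTb
  rw [_root_.Q80.BS.mb_eq]
  refine integral_congr_ae (Eventually.of_forall fun u => ?_)
  simp only
  rw [Fintype.prod_sum_type]
  rfl

/-- The limit of the normalised term. -/
def mainConst (γ : Fin k ⊕ Fin k → ℝ) (σ : Equiv.Perm (Fin k ⊕ Fin k)) (p q : Fin k → ℝ → ℂ) : ℂ :=
  (2 * Real.pi : ℂ) ^ (2 * k) *
    (arithF (1 / 2) (fun j => γ (σ (Sum.inl j))) (fun j => γ (σ (Sum.inr j))) * zetaProd γ σ *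
      transport γ σ p q)

/-- Let `k ≥ 1`, let `γ ∈ ℝ ^ (2k)` be arbitrary and let `σ` be a permutation of its `2k`
coordinates. For admissible test data the local average of `Z_γ / G_γ(σ)` over the shifts
`z / log T` and over the window with centre `T` and width `U`, `T ^ u ≤ U ≤ T / log T`, is `√π U`
times the average of the term `ζ_{σ(γ)}(1/2)` of the recipe over the shifted contour, with an error
smaller than every power of `T`; the term divided by `(log T) ^ N`, where `N` is the number of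
coincidences of `σ(γ)`, has the limit `mainConst`. -/
theorem result (k : ℕ) (hk : 1 ≤ k) (u : ℝ) (γ : Fin k ⊕ Fin k → ℝ)
    (σ : Equiv.Perm (Fin k ⊕ Fin k)) (p q : Fin k → ℝ → ℂ) (hpq : Adm u p q) :
    (∀ B : ℕ, ∀ᶠ T : ℝ in atTop, ∀ U : ℝ, T ^ u ≤ U → U ≤ T / Real.log T →
      ‖tested γ σ p q T U - (√Real.pi * U : ℝ) * term γ σ p q T‖ ≤ (T ^ B)⁻¹) ∧
    Tendsto (fun T : ℝ => term γ σ p q T / (Real.log T : ℂ) ^ numCoin γ σ) atTop
      (𝓝 (mainConst γ σ p q)) ∧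
    ∀ ε : ℝ, 0 < ε → ∀ᶠ T : ℝ in atTop, ∀ U : ℝ, T ^ u ≤ U → U ≤ T / Real.log T →
      ‖tested γ σ p q T U / (U * Real.log T ^ numCoin γ σ : ℝ) -
        √Real.pi * mainConst γ σ p q‖ ≤ ε := by
  obtain ⟨hp', hq', ξ, hξ', hs⟩ := hpq
  choose η hη hq using fun i => _root_.Q80.SP.Tst.tf (hq' i)
  have hp : ∀ i, W182.KO.TF (ξ i) (p i) := fun i => ⟨(hp' i).1, (hp' i).2, (hξ' i).2⟩
  have hξ : ∀ i, 0 ≤ ξ i := fun i => (hξ' i).1
  have hu : 0 < u := (Finset.sum_nonneg fun i _ => hξ i).trans_lt hs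
  have hpi := two_pi_ne
  have hA : ∀ B : ℕ, ∀ᶠ T : ℝ in atTop, ∀ U : ℝ, T ^ u ≤ U → U ≤ T / Real.log T →
      ‖tested γ σ p q T U - (√Real.pi * U : ℝ) * term γ σ p q T‖ ≤ (T ^ B)⁻¹ := by
    intro B
    have h1 := _root_.Q80.BS.main_b hk hp hq hξ hη hs (fun e => γ (σ e)) (B + 1)
    filter_upwards [h1, eventually_ge_atTop (4:ℝ),
      eventually_ge_atTop (‖(2 * Real.pi : ℂ) ^ (2 * k)‖)] with T h1 h4 h5 U hU1 hU2
    have hT0 : 0 < T := by linarith
    have hL : 1 ≤ Real.log T := _root_.Q80.VS.log_one h4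
    have hadm : Q97.MM.Adm T U :=
      ⟨by linarith, (Real.one_le_rpow (by linarith) hu.le).trans hU1, hU2⟩
    have h2 := h1 U hadm hU1
    rw [tested_eq γ σ p q (by linarith), term_eq]
    have e1 : ∀ c a b : ℂ, c * a - (√Real.pi * U : ℝ) * (c * b) =
        c * (a - ((U * √Real.pi : ℝ) : ℂ) * b) := by
      intro c a b
      push_cast
      ring
    rw [e1, norm_mul]
    calc _ ≤ T * (T ^ (B + 1))⁻¹ := by gcongr
      _ = (T ^ B)⁻¹ := by rw [pow_succ]; field_simp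
  have hB : Tendsto (fun T : ℝ => term γ σ p q T / (Real.log T : ℂ) ^ numCoin γ σ) atTop
      (𝓝 (mainConst γ σ p q)) := by
    have h1 := ((_root_.Q80.BS.lim_b' hp hq (fun e => γ (σ e))).comp
      Real.tendsto_log_atTop).const_mul ((2 * Real.pi : ℂ) ^ (2 * k))
    rw [← zetaProd_eq, ← transport_eq, ← arithF_eq] at h1
    refine h1.congr fun T => ?_
    simp only [Function.comp]
    rw [term_eq, numCoin_eq, mul_div_assoc]
  refine ⟨hA, hB, fun ε hε => ?_⟩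
  have hsp : 0 ≤ √Real.pi := Real.sqrt_nonneg _
  have h1 := (tendsto_iff_norm_sub_tendsto_zero.1 (hB.const_mul ((√Real.pi : ℝ) : ℂ))).eventually
    (gt_mem_nhds (half_pos hε))
  filter_upwards [h1, hA 1, eventually_ge_atTop (4:ℝ), eventually_ge_atTop (2 / ε)] with
    T h1 h2 h4 h5 U hU1 hU2
  have hT0 : 0 < T := by linarith
  have hL : 1 ≤ Real.log T := _root_.Q80.VS.log_one h4
  have hU0 : 1 ≤ U := (Real.one_le_rpow (by linarith) hu.le).trans hU1
  have hN : 1 ≤ U * Real.log T ^ numCoin γ σ := by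
    have := one_le_pow₀ hL (n := numCoin γ σ)
    nlinarith
  have hN0 : ((U * Real.log T ^ numCoin γ σ : ℝ) : ℂ) ≠ 0 :=
    Complex.ofReal_ne_zero.2 (by linarith)
  have h6 := h2 U hU1 hU2
  have e1 : tested γ σ p q T U / (U * Real.log T ^ numCoin γ σ : ℝ) -
        √Real.pi * mainConst γ σ p q =
      (tested γ σ p q T U - (√Real.pi * U : ℝ) * term γ σ p q T) /
        ((U * Real.log T ^ numCoin γ σ : ℝ) : ℂ) +
      (((√Real.pi : ℝ) : ℂ) * (term γ σ p q T / (Real.log T : ℂ) ^ numCoin γ σ) -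
        ((√Real.pi : ℝ) : ℂ) * mainConst γ σ p q) := by
    have hU' : (U : ℂ) ≠ 0 := Complex.ofReal_ne_zero.2 (by linarith)
    have hL' : (Real.log T : ℂ) ≠ 0 := Complex.ofReal_ne_zero.2 (by linarith)
    push_cast
    field_simp
    ring
  rw [e1]
  refine (norm_add_le _ _).trans ?_
  have h7 : ‖(tested γ σ p q T U - (√Real.pi * U : ℝ) * term γ σ p q T) /
        ((U * Real.log T ^ numCoin γ σ : ℝ) : ℂ)‖ ≤ ε / 2 := by
    rw [norm_div, Complex.norm_real, Real.norm_of_nonneg (by linarith)]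
    refine (div_le_self (norm_nonneg _) hN).trans (h6.trans ?_)
    rw [pow_one, inv_le_comm₀ hT0 (half_pos hε), inv_div]
    exact h5
  linarith

end

end Pool.Agent.Results.MP_fa2474_nt.RecipeTermsAllShifts
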